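import Mathlib
import Pool.Agent.H351R3.KanFence
import Pool.Agent.H351R3.NotKan

/-!
# Fences with minimal end points, and extension of monotone maps into them
-/

namespace Pool.Agent.Q135.Ex

open CategoryTheory Opposite PartialOrder Pool.Agent.H351R3

/-- The fence with `2 r + 1` elements `0, 1, ..., 2 r`: every odd element lies above its two
neighbours, and there are no other relations. -/
@[ext] structure EFence (r : ℕ) where
  /-- the underlying integer -/
  val : ℤ
  nonneg : 0 ≤ val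
  le_two_mul : val ≤ 2 * r

namespace EFence

variable {r : ℕ}

instance : PartialOrder (EFence r) where
  le a b := a.val = b.val ∨ (a.val % 2 = 0 ∧ (b.val = a.val + 1 ∨ b.val = a.val - 1))
  le_refl a := Or.inl rfl
  le_trans a b c h1 h2 := by omega
  le_antisymm a b h1 h2 := by ext; omega

lemma le_iff (a b : EFence r) :
    a ≤ b ↔ a.val = b.val ∨ (a.val % 2 = 0 ∧ (b.val = a.val + 1 ∨ b.val = a.val - 1)) := Iff.rfl

/-- smallest even number at least `a` -/
def up (a : EFence r) : ℤ := a.val + a.val % 2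

/-- largest even number at most `a` -/
def dn (a : EFence r) : ℤ := a.val - a.val % 2

/-- having a common upper bound -/
def Compat (a b : EFence r) : Prop := ∃ B : EFence r, a ≤ B ∧ b ≤ B

lemma Compat.up_le {a b : EFence r} (h : Compat a b) : a.up ≤ b.dn + 2 := by
  obtain ⟨B, h1, h2⟩ := h
  rw [le_iff] at h1 h2
  unfold up dn
  omega

lemma dn_le_up (a : EFence r) : a.dn ≤ a.up := by
  unfold up dn
  omega

lemma dn_ge (a : EFence r) : 0 ≤ a.dn := by
  have := a.nonneg
  unfold dn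
  omega

lemma up_le (a : EFence r) : a.up ≤ 2 * r := by
  have := a.le_two_mul
  unfold up
  omega

lemma dn_even (a : EFence r) : a.dn % 2 = 0 := by
  unfold dn
  omega

lemma compat_of_even {a f : EFence r} (hr : 1 ≤ r) (hf : f.val % 2 = 0) (h1 : a.up - 2 ≤ f.val)
    (h2 : f.val ≤ a.dn + 2) : Compat a f := by
  have ha0 := a.nonneg
  have ha1 := a.le_two_mul
  have hf0 := f.nonneg
  have hf1 := f.le_two_mul
  unfold up at h1
  unfold dn at h2
  by_cases hpar : a.val % 2 = 1
  · exact ⟨a, le_refl _, by rw [le_iff]; omega⟩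
  · rcases lt_trichotomy f.val a.val with h | h | h
    · exact ⟨⟨a.val - 1, by omega, by omega⟩, by rw [le_iff]; dsimp; omega,
        by rw [le_iff]; dsimp; omega⟩
    · exact ⟨a, le_refl _, by rw [le_iff]; omega⟩
    · exact ⟨⟨a.val + 1, by omega, by omega⟩, by rw [le_iff]; dsimp; omega,
        by rw [le_iff]; dsimp; omega⟩

lemma exists_isLUB (V : Set (EFence r)) (hne : V.Nonempty)
    (hV : ∀ a ∈ V, ∀ b ∈ V, Compat a b) : ∃ z, IsLUB V z := by
  by_cases hs : V.Subsingleton
  · obtain ⟨a, ha⟩ := hne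
    refine ⟨a, ?_, ?_⟩
    · intro b hb
      rw [hs hb ha]
    · intro b hb
      exact hb ha
  · rw [Set.not_subsingleton_iff] at hs
    obtain ⟨a, ha, b, hb, hab⟩ := hs
    obtain ⟨B, h1, h2⟩ := hV a ha b hb
    have hab' : a.val ≠ b.val := fun h => hab (EFence.ext h)
    refine ⟨B, ?_, ?_⟩
    · intro c hc
      obtain ⟨B1, h3, h4⟩ := hV a ha c hc
      obtain ⟨B2, h5, h6⟩ := hV b hb c hc
      rw [le_iff] at *
      omega
    · intro z hz
      have h3 := hz ha
      have h4 := hz hb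
      rw [le_iff] at *
      omega

end EFence

variable {Q : Type*} [PartialOrder Q]

section Lip

variable {r : ℕ} {A : Set Q} {D : NonemptyFiniteChains Q → EFence r}
  (hD : ∀ τ ∈ chainsIn A, ∀ τ' ∈ chainsIn A, τ ≤ τ' → D τ ≤ D τ')

include hD

lemma compat_of_comparable {τ τ' : NonemptyFiniteChains Q} (hτ : τ ∈ chainsIn A)
    (hτ' : τ' ∈ chainsIn A) (h : ∀ x ∈ τ.finset, ∀ y ∈ τ'.finset, x ≤ y ∨ y ≤ x) :
    EFence.Compat (D τ) (D τ') := by
  have hU : unionChain τ τ' h ∈ chainsIn A := by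
    intro x hx
    rw [mem_unionChain] at hx
    rcases hx with hx | hx
    · exact hτ x hx
    · exact hτ' x hx
  refine ⟨D (unionChain τ τ' h), hD _ hτ _ hU ?_, hD _ hτ' _ hU ?_⟩
  · intro x hx
    rw [mem_unionChain]
    exact Or.inl hx
  · intro x hx
    rw [mem_unionChain]
    exact Or.inr hx

lemma reach_le {τ : NonemptyFiniteChains Q} (hτ : τ ∈ chainsIn A) {q : ℕ} {w : Q}
    (h : Reach A τ q w) : (D (single w)).up ≤ (D τ).dn + 2 * q := by
  induction h with
  | one hw h =>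
    rename_i w
    have h1 : EFence.Compat (D (single w)) (D τ) := by
      refine compat_of_comparable hD (single_mem hw) hτ ?_
      intro x hx y hy
      rw [mem_single] at hx
      subst hx
      exact (h y hy).symm
    have := h1.up_le
    push_cast
    omega
  | succ h hw' hc ih =>
    rename_i q w w'
    have h1 : EFence.Compat (D (single w')) (D (single w)) := by
      refine compat_of_comparable hD (single_mem hw') (single_mem h.mem) ?_
      intro x hx y hy
      rw [mem_single] at hx hy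
      subst hx
      subst hy
      exact hc.symm
    have h2 := h1.up_le
    have h3 := (D (single w)).dn_le_up
    push_cast
    omega

lemma link_le {τ τ' : NonemptyFiniteChains Q} (hτ : τ ∈ chainsIn A) (hτ' : τ' ∈ chainsIn A)
    {q : ℕ} (h : Link A q τ τ') : (D τ').up ≤ (D τ).dn + 2 * q + 2 := by
  rcases h with ⟨h0, h⟩ | ⟨w, h, hw⟩
  · have h1 : EFence.Compat (D τ') (D τ) := by
      refine compat_of_comparable hD hτ' hτ ?_
      intro x hx y hy
      exact (h y hy x hx).symm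
    have := h1.up_le
    omega
  · have h1 := reach_le hD hτ h
    have h2 : EFence.Compat (D τ') (D (single w)) := by
      refine compat_of_comparable hD hτ' (single_mem h.mem) ?_
      intro x hx y hy
      rw [mem_single] at hy
      subst hy
      exact hw x hx
    have h3 := h2.up_le
    have h4 := (D (single w)).dn_le_up
    omega

end Lip

/-- **Extension theorem.** Monotone maps from the chains of `A` to a fence with minimal end points
which is not too long extend to all chains. -/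
theorem extendE {A : Set Q} {r c : ℕ} (hr : 1 ≤ r) (hrc : r ≤ c + 1) (H : Sep A c)
    (D : NonemptyFiniteChains Q → EFence r)
    (hD : ∀ τ ∈ chainsIn A, ∀ τ' ∈ chainsIn A, τ ≤ τ' → D τ ≤ D τ') :
    ∃ D' : NonemptyFiniteChains Q →o EFence r, ∀ τ ∈ chainsIn A, D' τ = D τ := by
  classical
  -- the values of the possible bounds
  let S : Q → Set ℤ := fun w =>
    {v | ∃ τ ∈ chainsIn A, ∃ q : ℕ, Reach Aᶜ τ q w ∧ v = (D τ).dn + 2 * q} ∪ {2 * (r : ℤ)}
  have hSne : ∀ w, (S w).Nonempty := fun w => ⟨2 * (r : ℤ), Or.inr rfl⟩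
  have hSge : ∀ w, ∀ v ∈ S w, 0 ≤ v := by
    rintro w v (⟨τ, hτ, q, hq, rfl⟩ | hv)
    · have h1 := (D τ).dn_ge
      have h2 := hq.pos
      omega
    · rw [Set.mem_singleton_iff] at hv
      omega
  have hSbdd : ∀ w, BddBelow (S w) := fun w => ⟨0, fun v hv => hSge w v hv⟩
  have hSeven : ∀ w, ∀ v ∈ S w, v % 2 = 0 := by
    rintro w v (⟨τ, hτ, q, hq, rfl⟩ | hv)
    · have h1 := (D τ).dn_even
      omega
    · rw [Set.mem_singleton_iff] at hv
      omega
  let g : Q → ℤ := fun w => sInf (S w)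
  have hgmem : ∀ w, g w ∈ S w := fun w => Int.csInf_mem (hSne w) (hSbdd w)
  have hgle : ∀ w, ∀ v ∈ S w, g w ≤ v := fun w v hv => csInf_le (hSbdd w) hv
  have hg1 : ∀ w, 0 ≤ g w := fun w => hSge w _ (hgmem w)
  have hg2 : ∀ w, g w ≤ 2 * (r : ℤ) := fun w => hgle w _ (Or.inr rfl)
  have hgeven : ∀ w, g w % 2 = 0 := fun w => hSeven w _ (hgmem w)
  let f : Q → EFence r := fun w => ⟨g w, hg1 w, hg2 w⟩
  -- neighbours outside `A`
  have hstep : ∀ w ∈ Aᶜ, ∀ w' ∈ Aᶜ, (w ≤ w' ∨ w' ≤ w) → g w' ≤ g w + 2 := by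
    intro w hw w' hw' hc
    rcases hgmem w with ⟨τ, hτ, q, hq, he⟩ | he
    · have h1 : (D τ).dn + 2 * ((q + 1 : ℕ) : ℤ) ∈ S w' :=
        Or.inl ⟨τ, hτ, q + 1, Reach.succ hq hw' hc, rfl⟩
      have h2 := hgle w' _ h1
      push_cast at h2
      omega
    · rw [Set.mem_singleton_iff] at he
      have := hg2 w'
      omega
  have hcomp1 : ∀ w ∈ Aᶜ, ∀ w' ∈ Aᶜ, (w ≤ w' ∨ w' ≤ w) → EFence.Compat (f w) (f w') := by
    intro w hw w' hw' hc
    have h1 := hstep w hw w' hw' hc
    have h2 := hstep w' hw' w hw hc.symm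
    have h3 := hgeven w
    have h4 := hgeven w'
    refine EFence.compat_of_even hr (hgeven w') ?_ ?_
    · change (g w + g w % 2) - 2 ≤ g w'
      omega
    · change g w' ≤ (g w - g w % 2) + 2
      omega
  -- neighbours in `A`
  have hcomp2 : ∀ τ ∈ chainsIn A, ∀ w ∈ Aᶜ, Adj τ w → EFence.Compat (D τ) (f w) := by
    intro τ hτ w hw hadj
    refine EFence.compat_of_even hr (hgeven w) ?_ ?_
    · change (D τ).up - 2 ≤ g w
      rcases hgmem w with ⟨τ', hτ', q, hq, he⟩ | he
      · rw [he]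
        by_cases hqr : c ≤ q
        · have h1 := (D τ').dn_ge
          have h2 := (D τ).up_le
          omega
        · obtain ⟨p, hp, hlink⟩ := H τ' hτ' τ hτ q (by omega) (Or.inr ⟨w, hq, hadj⟩)
          have h1 := link_le hD hτ' hτ hlink
          omega
      · rw [Set.mem_singleton_iff] at he
        have := (D τ).up_le
        omega
    · change g w ≤ (D τ).dn + 2
      have h1 : (D τ).dn + 2 * ((1 : ℕ) : ℤ) ∈ S w := Or.inl ⟨τ, hτ, 1, Reach.one hw hadj, rfl⟩
      have h2 := hgle w _ h1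
      push_cast at h2
      omega
  -- the set of values below the image of a chain
  let V : NonemptyFiniteChains Q → Set (EFence r) := fun τ =>
    {v | ∃ h : ∃ x ∈ τ.finset, x ∈ A, v = D (part A τ h)} ∪ {v | ∃ w ∈ τ.finset, w ∉ A ∧ v = f w}
  have hVne : ∀ τ, (V τ).Nonempty := by
    intro τ
    obtain ⟨x, hx⟩ := τ.nonempty
    by_cases hxA : x ∈ A
    · exact ⟨_, Or.inl ⟨⟨x, hx, hxA⟩, rfl⟩⟩
    · exact ⟨_, Or.inr ⟨x, hx, hxA, rfl⟩⟩
  have hVcompat : ∀ τ, ∀ a ∈ V τ, ∀ b ∈ V τ, EFence.Compat a b := by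
    intro τ a ha b hb
    have key : ∀ (h : ∃ x ∈ τ.finset, x ∈ A) (w : Q), w ∈ τ.finset → w ∉ A →
        EFence.Compat (D (part A τ h)) (f w) := by
      intro h w hw hwA
      refine hcomp2 _ part_mem w hwA ?_
      intro x hx
      exact τ.comparable ⟨x, (mem_part.1 hx).1⟩ ⟨w, hw⟩
    rcases ha with ⟨h, rfl⟩ | ⟨w, hw, hwA, rfl⟩
    · rcases hb with ⟨h', rfl⟩ | ⟨w', hw', hwA', rfl⟩
      · exact ⟨_, le_rfl, le_rfl⟩
      · exact key h w' hw' hwA'
    · rcases hb with ⟨h', rfl⟩ | ⟨w', hw', hwA', rfl⟩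
      · obtain ⟨B, h1, h2⟩ := key h' w hw hwA
        exact ⟨B, h2, h1⟩
      · exact hcomp1 w hwA w' hwA' (τ.comparable ⟨w, hw⟩ ⟨w', hw'⟩)
  choose F hF using fun τ => EFence.exists_isLUB (V τ) (hVne τ) (hVcompat τ)
  refine ⟨⟨F, ?_⟩, ?_⟩
  · intro τ τ' hle
    refine (hF τ).2 ?_
    rintro a (⟨h, rfl⟩ | ⟨w, hw, hwA, rfl⟩)
    · have h' : ∃ x ∈ τ'.finset, x ∈ A := by
        obtain ⟨x, hx, hxA⟩ := h
        exact ⟨x, hle hx, hxA⟩
      have h1 : D (part A τ h) ≤ D (part A τ' h') := by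
        refine hD _ part_mem _ part_mem ?_
        intro x hx
        rw [mem_part] at hx ⊢
        exact ⟨hle hx.1, hx.2⟩
      exact h1.trans ((hF τ').1 (Or.inl ⟨h', rfl⟩))
    · exact (hF τ').1 (Or.inr ⟨w, hle hw, hwA, rfl⟩)
  · intro τ hτ
    have hex : ∃ x ∈ τ.finset, x ∈ A := by
      obtain ⟨x, hx⟩ := τ.nonempty
      exact ⟨x, hx, hτ x hx⟩
    have hpart : part A τ hex = τ := by
      ext x
      rw [mem_part]
      exact ⟨fun h => h.1, fun h => ⟨h, hτ x h⟩⟩
    apply le_antisymm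
    · refine (hF τ).2 ?_
      rintro a (⟨h, rfl⟩ | ⟨w, hw, hwA, rfl⟩)
      · have : part A τ h = τ := hpart
        rw [this]
      · exact absurd (hτ w hw) hwA
    · have h1 := (hF τ).1 (Or.inl ⟨hex, rfl⟩)
      rwa [hpart] at h1

/-- fences with minimal end points as objects of the category of posets -/
abbrev efenceP (r : ℕ) : PartOrd.{0} := PartOrd.of (EFence r)

theorem hornExt_efence (k r : ℕ) (hr : 1 ≤ r) (hrk : r ≤ 2 ^ (k + 1)) :
    HornExt (k + 2) (efenceP r) := by
  intro m i D hD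
  let Q : PartOrd.{0} := (chN (k + 1)).obj (Od.obj (SimplexCategory.mk (m + 1)))
  obtain ⟨E, hE⟩ := exists_glue (k + 2) (efenceP r) (⟨0, le_refl _, by positivity⟩ : EFence r) hD
  have hmono : ∀ τ ∈ chainsIn (Q := Q) (hornReg (k + 1) m i),
      ∀ τ' ∈ chainsIn (Q := Q) (hornReg (k + 1) m i), τ ≤ τ' →
      (E τ : EFence r) ≤ (E τ' : EFence r) := by
    intro τ hτ τ' hτ' hle
    obtain ⟨j, hj, hreg'⟩ := chainsIn_hornReg (k + 1) m i (by omega) τ' hτ'
    have hreg := reg_lower (k + 1) _ (facet m j) (x := τ) (y := τ') hle hreg'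
    obtain ⟨y, hy⟩ := (mem_face_iff (k + 2) m j _).1 hreg
    obtain ⟨y', hy'⟩ := (mem_face_iff (k + 2) m j _).1 hreg'
    have h1 : E τ = (D j hj).hom y := by rw [← hE j hj y, hy]
    have h2 : E τ' = (D j hj).hom y' := by rw [← hE j hj y', hy']
    have h3 : y ≤ y' := by
      refine emb_iter (k + 2) (delta_emb m j) _ _ ?_
      rw [hy, hy']
      exact hle
    have h4 : (D j hj).hom y ≤ (D j hj).hom y' := (D j hj).hom.monotone h3
    exact (h1.trans_le h4).trans_eq h2.symm
  have hc : r ≤ (2 ^ (k + 1) - 1) + 1 := by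
    have : 1 ≤ 2 ^ (k + 1) := Nat.one_le_two_pow
    omega
  obtain ⟨D', hD'⟩ := extendE (Q := Q) (A := hornReg (k + 1) m i) hr hc (sep_horn m i k)
    (fun τ => E τ) hmono
  refine ⟨PartOrd.ofHom D', fun j hj => ?_⟩
  refine PartOrd.ext (fun y => ?_)
  have hmem : ((chN (k + 2)).map (Od.map (SimplexCategory.δ j))).hom y ∈
      reg (k + 2) _ (facet m j) := (mem_face_iff (k + 2) m j _).2 ⟨y, rfl⟩
  have hmem' : (((chN (k + 2)).map (Od.map (SimplexCategory.δ j))).hom y :
      NonemptyFiniteChains Q) ∈ chainsIn (hornReg (k + 1) m i) :=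
    fun x hx => ⟨j, hj, hmem x hx⟩
  have h5 := hD' _ hmem'
  rw [← hE j hj y]
  exact h5

instance finite_efence (r : ℕ) : Finite (EFence r) := by
  have h : Function.Injective (fun x : EFence r => (⟨x.val, x.nonneg, x.le_two_mul⟩ :
      Set.Icc (0 : ℤ) (2 * r))) := by
    intro x y hxy
    exact EFence.ext (congrArg (fun z : Set.Icc (0 : ℤ) (2 * r) => (z : ℤ)) hxy)
  exact Finite.of_injective _ h

end Pool.Agent.Q135.Ex
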